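import Mathlib
import Pool.Agent.K6.H91.EX.Sol

set_option autoImplicit false

/-!
# Products of two groups of finite exponent: abelian normal sections have bounded exponent

Let the group `G = A B` be the product of two subgroups whose exponents divide `m`, and let every
subgroup of `A` generated by two elements have at most `M` elements. Put `D = M! 5 ^ M`.

* For every normal subgroup `K` of `G` the exponent of `K / K'` divides `N = m D!`, and if `K` is
  soluble of derived length at most `d` then the exponent of `K` divides `N ^ d`.
* If `G` is a `p`-group, `N` can be replaced by the largest power of `p` not exceeding `D`, times `m`.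
* For all `m` and `d` there is a number `N > 0` such that the exponent of every soluble group `G = A B`
  of derived length at most `d` divides `N` if the exponents of `A` and `B` divide `m`.

There is no condition on the class or the derived length of `A`, `B` and `G` in the first two parts.
For finite groups of exponent `p` with two generators the order is bounded (Kostrikin), so for
`m = p` the first two parts concern all groups of the problem.

Proof. Let `V` be an abelian normal subgroup and `v ∈ V`. Write `v a, v ^ 2 b ∈ B` with `a, b ∈ A`. For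
`g` in the group `H` generated by `a` and `b` there is `u ∈ V` with `u g ∈ B`, and `β g = u ^ m` depends
only on `g`. This is a cocycle of the finite group `H` with values in `V` and `β b = (β a) ^ 2`. The
element `(b - 1) - 2 (a - 1)` has no kernel on a nontrivial unitary irreducible representation of `H`:
from `b x + x = 2 a x` the equality case of the triangle inequality gives `b x = x = a x`. Hence a
number bounded in terms of the order of `H` annihilates `β a = v ^ m`.
-/

namespace Pool.Agent.Results.MP_38b55a_al.NormalSections

open Pool.Agent.K6.H91.EX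

theorem result :
    -- arbitrary groups
    (∀ (m M : ℕ) (G : Type) [Group G] (A B : Subgroup G), IsProd A B m M →
      ∀ K : Subgroup G, K.Normal → ∀ g ∈ K,
        g ^ (m * (M.factorial * 5 ^ M).factorial) ∈ ⁅K, K⁆ ∧
        ∀ d : ℕ, derivedSeries K d = ⊥ → g ^ ((m * (M.factorial * 5 ^ M).factorial) ^ d) = 1) ∧
    -- groups of prime power order
    (∀ (p m M : ℕ), p.Prime → ∀ (G : Type) [Group G] (A B : Subgroup G), IsPGroup p G →
      IsProd A B m M → ∀ K : Subgroup G, K.Normal → ∀ g ∈ K,
        g ^ (m * p ^ Nat.log p (M.factorial * 5 ^ M)) ∈ ⁅K, K⁆ ∧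
        ∀ d : ℕ, derivedSeries K d = ⊥ →
          g ^ ((m * p ^ Nat.log p (M.factorial * 5 ^ M)) ^ d) = 1) ∧
    -- soluble groups
    (∀ m d : ℕ, 0 < m → ∃ N : ℕ, 0 < N ∧ ∀ (G : Type) [Group G] (A B : Subgroup G),
      (∀ g : G, ∃ a ∈ A, ∃ b ∈ B, g = a * b) → (∀ a ∈ A, a ^ m = 1) → (∀ b ∈ B, b ^ m = 1) →
      derivedSeries G d = ⊥ → ∀ g : G, g ^ N = 1) := by
  refine ⟨fun m M G _ A B h K hK g hg => ?_, fun p m M hp G _ A B hG h K hK g hg => ?_,
    fun m d hm => ?_⟩
  · refine ⟨normal_pow h hg, fun d hd => ?_⟩
    have h1 := der_pow K h hg d
    rw [der_eq_bot hd] at h1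
    exact Subgroup.mem_bot.1 h1
  · refine ⟨normal_pow_p h hp hG hg, fun d hd => ?_⟩
    have h1 := der_pow_p K h hp hG hg d
    rw [der_eq_bot hd] at h1
    exact Subgroup.mem_bot.1 h1
  · refine ⟨bigN m (solBound m d 2) ^ d, pow_pos (bigN_pos hm) d,
      fun G _ A B h1 h2 h3 hd g => ?_⟩
    exact solvable_pow ⟨h1, h2, h3, two_gen m hm d A h2 hd⟩ hd g

end Pool.Agent.Results.MP_38b55a_al.NormalSections
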